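import Pool.Agent.V11210.AD.Main

/-!
# The mean of the doubling indices: tori analytic in one variable

The torus is `ℝ × ℝ` modulo the lattice generated by `(L, α)` and `(0, 2π)`, with the metric
`ρ(x, y)(dx² + dy²)`, where `ρ` is continuous in both variables and real analytic in `y` only
(uniformly).  This contains, with no assumption on the profile besides continuity, all metrics
invariant under a circle action on the torus.

For every eigenfunction and every covering by geodesic discs of radius `C / √lam` with multiplicity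
at most `C₁` (centred at zeros of the eigenfunction or not, in any number) the mean of the doubling
indices is at most `A log (2 + lam)`; if all the doubling indices are at most `T` it is at most
`A (1 + log T)`; and the mean of `N / (log (2 + N)) ^ (1 + ε)` is bounded for every `ε > 0`, uniformly
in the eigenfunction and the covering.

The growth function behind it is in `Pool.Agent.Y291`.
-/

set_option autoImplicit false

namespace Pool.Agent.Results.MP_c7f82c_an.MeanUpToLogarithm

open Pool.Agent.Y291.DB Pool.Agent.Y291.PA Pool.Agent.V11210.AD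

/-- The geodesic discs of radius `r` with centers `c i` cover the torus and every point lies in at
most `C₁` of them. -/
structure BoundedCovering (ρ : ℝ × ℝ → ℝ) (L α r C₁ : ℝ) {ι : Type} [Fintype ι]
    (c : ι → ℝ × ℝ) : Prop where
  cover : ∀ q : ℝ × ℝ, ∃ i, q ∈ disc ρ L α (c i) r
  mult : ∀ q : ℝ × ℝ, ({i | q ∈ disc ρ L α (c i) r}.ncard : ℝ) ≤ C₁

/-- Let `ρ` be a continuous positive function on the torus, analytic in the second variable.  For
all `C, C₁ > 0` there are `A` and `A' : ℝ → ℝ` such that for all eigenfunctions `φ` (with eigenvalue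
`lam`) and all finite coverings `B_i` by geodesic discs of radius `C / √lam` with multiplicity at
most `C₁`: (1) `(Σ N(B_i)) / #B_i ≤ A log (2 + lam)`; (2) if `T ≥ 1` and `N(B_i) ≤ T` for all `i`,
then `(Σ N(B_i)) / #B_i ≤ A (1 + log T)`; (3) for all `ε > 0`
`(Σ N(B_i) / (log (2 + N(B_i))) ^ (1 + ε)) / #B_i ≤ A' ε`. -/
theorem result (ρ : ℝ × ℝ → ℝ) (L α : ℝ) (hL : 0 < L) (hρc : Continuous ρ)
    (hρpos : ∀ p, 0 < ρ p) (hρx : ∀ p : ℝ × ℝ, ρ (p.1 + L, p.2 + α) = ρ p)
    (hρy : ∀ p : ℝ × ℝ, ρ (p.1, p.2 + 2 * Real.pi) = ρ p) (hρa : AnalyticInSecond ρ)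
    (C C₁ : ℝ) (hC : 0 < C) (hC₁ : 0 < C₁) :
    ∃ (A : ℝ) (A' : ℝ → ℝ), ∀ (lam : ℝ) (φ : ℝ × ℝ → ℝ), Eigen ρ L α lam φ →
      ∀ (ι : Type) [Fintype ι] (c : ι → ℝ × ℝ),
        BoundedCovering ρ L α (C / Real.sqrt lam) C₁ c →
        (∑ i, doubling ρ L α φ (c i) (C / Real.sqrt lam)) / Fintype.card ι ≤
          A * Real.log (2 + lam) ∧
        (∀ T : ℝ, 1 ≤ T → (∀ i, doubling ρ L α φ (c i) (C / Real.sqrt lam) ≤ T) →
          (∑ i, doubling ρ L α φ (c i) (C / Real.sqrt lam)) / Fintype.card ι ≤
            A * (1 + Real.log T)) ∧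
        ∀ ε : ℝ, 0 < ε →
          (∑ i, doubling ρ L α φ (c i) (C / Real.sqrt lam) /
            (Real.log (2 + doubling ρ L α φ (c i) (C / Real.sqrt lam))) ^ (1 + ε)) /
              Fintype.card ι ≤ A' ε := by
  classical
  obtain ⟨a, b, ha, hb, hmain⟩ := weak_and_upper hL hρc hρpos hρx hρy hρa hC hC₁
  have hlog2 : 0 < Real.log 2 := Real.log_pos one_lt_two
  have hlogb : 0 ≤ Real.log b := Real.log_nonneg hb
  refine ⟨(1 + a * (1 + Real.log b)) / Real.log 2 + (1 + a),
    fun ε => 1 / (Real.log 2) ^ (1 + ε) + a * ∑' j, wt ε j, fun lam φ hφ ι _ c hc => ?_⟩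
  obtain ⟨hup, hw⟩ := hmain lam φ hφ
  have hw' := hw ι c hc.cover hc.mult
  have hlam := hφ.pos
  have hcard1 : (0 : ℝ) < Fintype.card ι := by
    obtain ⟨i, -⟩ := hc.cover (0, 0)
    have : 0 < Fintype.card ι := Fintype.card_pos_iff.2 ⟨i⟩
    exact_mod_cast this
  have hr : 0 < C / Real.sqrt lam := div_pos hC (Real.sqrt_pos.2 hlam)
  refine ⟨?_, ?_, ?_⟩
  · rw [div_le_iff₀ hcard1]
    have hs1 : 1 ≤ Real.sqrt (1 + lam) := Real.one_le_sqrt.2 (by linarith)
    refine (mean_le ha.le (one_le_mul_of_one_le_of_one_le hb hs1) hw' fun i => hup _).trans ?_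
    refine mul_le_mul_of_nonneg_right ?_ hcard1.le
    rw [Real.log_mul (by positivity) (by positivity), Real.log_sqrt (by linarith)]
    have h1 : Real.log (1 + lam) ≤ Real.log (2 + lam) := Real.log_le_log (by linarith) (by linarith)
    have h2 : Real.log 2 ≤ Real.log (2 + lam) := Real.log_le_log two_pos (by linarith)
    have h3 : 0 ≤ Real.log (1 + lam) := Real.log_nonneg (by linarith)
    have h4 : 1 + a * (1 + Real.log b) ≤
        (1 + a * (1 + Real.log b)) / Real.log 2 * Real.log (2 + lam) := by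
      rw [div_mul_eq_mul_div, le_div_iff₀ hlog2]
      exact mul_le_mul_of_nonneg_left h2 (by positivity)
    have h5 : a * (Real.log (1 + lam) / 2) ≤ a * Real.log (2 + lam) :=
      mul_le_mul_of_nonneg_left (by linarith) ha.le
    nlinarith
  · intro T hT hN
    rw [div_le_iff₀ hcard1]
    refine (mean_le ha.le hT hw' hN).trans ?_
    refine mul_le_mul_of_nonneg_right ?_ hcard1.le
    have h1 : 0 ≤ Real.log T := Real.log_nonneg hT
    have h2 : 0 ≤ (1 + a * (1 + Real.log b)) / Real.log 2 := by positivity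
    nlinarith [mul_nonneg h2 (by linarith : (0 : ℝ) ≤ 1 + Real.log T)]
  · intro ε hε
    rw [div_le_iff₀ hcard1]
    exact orlicz_le ha.le hε (fun i => doubling_nonneg hL hφ _ hr) hw'

end Pool.Agent.Results.MP_c7f82c_an.MeanUpToLogarithm
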